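import Pool.Agent.Helper69.Io.Main

/-!
# MP_491b55_lc, Q1: not every stable theory is below every unstable theory in the order for `κ = 1`

The definitions `Tup`, `Tup.Dom`, `Tup.Defines` (interpretations), `IsSat` (`κ`-saturated
structures) and `Unstable` are those of the library module that answers Q2
(`R598.IO.Defs`), and the order `LeOne` below is the order `LeStar` of that module for `κ = 1`
instead of `κ = ℵ₁`. The theories are

* `TE`: the complete theory of `ℕ → ℕ` with the equivalence relations `E_n`: agreement below `n`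
  (refining equivalence relations with infinite splitting);
* `TR`: the complete theory of the random graph.
-/

set_option autoImplicit false

open FirstOrder FirstOrder.Language Cardinal Pool.Agent.R598.IO Pool.Agent.Helper69.Io

namespace Pool.Agent.Results.MP_491b55_lc.StableNotBelowRandomGraph

/-- The order `⊴*_1` on theories: for all sufficiently large regular cardinals `lam` some complete
theory `T` in a countable vocabulary with disjoint parts `A` and `B` interprets `T₀` by formulas of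
`A` and `T₁` by formulas of `B`, and for each model of `T`, if the interpreted model of `T₁` is
`lam`-saturated then the interpreted model of `T₀` is `lam`-saturated. -/
def LeOne {L₀ L₁ : FirstOrder.Language.{0, 0}} (T₀ : L₀.Theory) (T₁ : L₁.Theory) : Prop :=
  ∃ μ : Cardinal.{0}, ∀ lam : Cardinal.{0}, μ ≤ lam → lam.IsRegular →
    ∃ (A B C : FirstOrder.Language.{0, 0}) (T : ((A.sum B).sum C).Theory)
      (φ₀ : Tup L₀ A) (φ₁ : Tup L₁ B), A.card ≤ ℵ₀ ∧ B.card ≤ ℵ₀ ∧ C.card ≤ ℵ₀ ∧ T.IsComplete ∧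
      ∀ (M : Type) [Nonempty M] [A.Structure M] [B.Structure M] [C.Structure M], M ⊨ T →
        ∃ (S₀ : L₀.Structure (φ₀.Dom M)) (S₁ : L₁.Structure (φ₁.Dom M)),
          φ₀.Defines M S₀ ∧ φ₁.Defines M S₁ ∧ Nonempty (φ₀.Dom M) ∧ Nonempty (φ₁.Dom M) ∧
          φ₀.Dom M ⊨ T₀ ∧ φ₁.Dom M ⊨ T₁ ∧
          (IsSat lam L₁ (φ₁.Dom M) → IsSat lam L₀ (φ₀.Dom M))

/-- The data of an interpretation in a structure. -/
def Sem {L₀ : FirstOrder.Language.{0, 0}} {M : Type} (p : M → Prop)
    (r : ∀ n, L₀.Relations n → (Fin n → M) → Prop)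
    (f : ∀ n, L₀.Functions n → (Fin (n + 1) → M) → Prop) (S : L₀.Structure {a : M // p a}) :
    Prop :=
  (∀ {n : ℕ} (R : L₀.Relations n) (x : Fin n → {a : M // p a}),
    S.RelMap R x ↔ r n R fun i => (x i).1) ∧
  ∀ {n : ℕ} (g : L₀.Functions n) (x : Fin n → {a : M // p a}) (y : {a : M // p a}),
    S.funMap g x = y ↔ f n g (Fin.snoc (fun i => (x i).1) y.1 : Fin _ → M)

theorem sem_transfer {L₀ L₁ : FirstOrder.Language.{0, 0}} {M : Type} {p p' q q' : M → Prop}
    {r r' : ∀ n, L₀.Relations n → (Fin n → M) → Prop}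
    {f f' : ∀ n, L₀.Functions n → (Fin (n + 1) → M) → Prop}
    {s s' : ∀ n, L₁.Relations n → (Fin n → M) → Prop}
    {g g' : ∀ n, L₁.Functions n → (Fin (n + 1) → M) → Prop}
    (hp : p = p') (hr : r = r') (hf : f = f') (hq : q = q') (hs : s = s') (hg : g = g')
    (Q : ∀ (D₀ D₁ : Type), L₀.Structure D₀ → L₁.Structure D₁ → Prop)
    (h : ∃ (S₀ : L₀.Structure {a : M // p a}) (S₁ : L₁.Structure {a : M // q a}),
      Sem p r f S₀ ∧ Sem q s g S₁ ∧ Q _ _ S₀ S₁) :
    ∃ (S₀ : L₀.Structure {a : M // p' a}) (S₁ : L₁.Structure {a : M // q' a}),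
      Sem p' r' f' S₀ ∧ Sem q' s' g' S₁ ∧ Q _ _ S₀ S₁ := by
  subst hp hr hf hq hs hg
  exact h

/-- The image of a tuple of formulas under a map of vocabularies. -/
def mapTup {L₀ A L : FirstOrder.Language.{0, 0}} (φ : Tup L₀ A) (ψ : A →ᴸ L) : Tup L₀ L where
  eq := ψ.onFormula φ.eq
  rel := fun R => ψ.onFormula (φ.rel R)
  fn := fun f => ψ.onFormula (φ.fn f)

theorem IsSat.mono {κ κ' : Cardinal.{0}} (h : κ ≤ κ') {L : FirstOrder.Language.{0, 0}} {M : Type}
    [L.Structure M] (hM : IsSat κ' L M) : IsSat κ L M :=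
  fun n A hA p hp => hM n A (hA.trans_le h) p hp

theorem sum_reduct {A B : FirstOrder.Language.{0, 0}} {M : Type} (S : (A.sum B).Structure M) :
    @sumStructure A B M ((LHom.sumInl : A →ᴸ A.sum B).reduct M)
      ((LHom.sumInr : B →ᴸ A.sum B).reduct M) = S := by
  refine FirstOrder.Language.Structure.ext ?_ ?_
  · funext n f x
    rcases f with f | f <;> rfl
  · funext n R x
    rcases R with R | R <;> rfl

theorem not_leOne : ¬ LeOne TE TR := by
  rintro ⟨μ, hμ⟩
  let lam : Cardinal.{0} := Order.succ (max μ ℵ₀)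
  have hlam : ℵ₀ ≤ lam := (le_max_right _ _).trans (Order.le_succ _)
  have hlam1 : ℵ₁ ≤ lam := by
    rw [← succ_aleph0]
    exact Order.succ_le_succ (le_max_right _ _)
  have hreg : lam.IsRegular := isRegular_succ (le_max_right _ _)
  obtain ⟨A, B, C, T, φ₀, φ₁, -, -, -, hT, hint⟩ :=
    hμ lam ((le_max_left _ _).trans (Order.le_succ _)) hreg
  let L : FirstOrder.Language.{0, 0} := (A.sum B).sum C
  let iA : A →ᴸ L := LHom.sumInl.comp LHom.sumInl
  let iB : B →ᴸ L := LHom.sumInl.comp LHom.sumInr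
  -- the hypothesis for a structure for the vocabulary `L`
  have key : ∀ (M : Type) [Nonempty M] [L.Structure M], M ⊨ T →
      ∃ (S₀ : LE.Structure ((mapTup φ₀ iA).Dom M)) (S₁ : LR.Structure ((mapTup φ₁ iB).Dom M)),
        (mapTup φ₀ iA).Defines M S₀ ∧ (mapTup φ₁ iB).Defines M S₁ ∧
        ((mapTup φ₀ iA).Dom M ⊨ TE ∧ (mapTup φ₁ iB).Dom M ⊨ TR ∧
          (IsSat lam LR ((mapTup φ₁ iB).Dom M) → IsSat lam LE ((mapTup φ₀ iA).Dom M))) := by
    intro M _ S hM
    let SAB : (A.sum B).Structure M := (LHom.sumInl : A.sum B →ᴸ (A.sum B).sum C).reduct M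
    let SA : A.Structure M := @LHom.reduct A (A.sum B) LHom.sumInl M SAB
    let SB : B.Structure M := @LHom.reduct B (A.sum B) LHom.sumInr M SAB
    let SC : C.Structure M := (LHom.sumInr : C →ᴸ (A.sum B).sum C).reduct M
    have h1 : @sumStructure A B M SA SB = SAB := sum_reduct SAB
    have h2 : @sumStructure (A.sum B) C M (@sumStructure A B M SA SB) SC = S := by
      rw [h1]
      exact sum_reduct S
    have hM' : @Theory.Model L M (@sumStructure (A.sum B) C M (@sumStructure A B M SA SB) SC) T := by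
      rw [h2]
      exact hM
    obtain ⟨S₀, S₁, h3, h4, -, -, h5, h6, h7⟩ := hint M hM'
    have hA : iA.IsExpansionOn M := ⟨fun f x => rfl, fun R x => rfl⟩
    have hB : iB.IsExpansionOn M := ⟨fun f x => rfl, fun R x => rfl⟩
    refine sem_transfer (M := M) (L₀ := LE) (L₁ := LR)
      (p := fun a => φ₀.eq.Realize ![a, a]) (p' := fun a => (mapTup φ₀ iA).eq.Realize ![a, a])
      (r := fun n u v => (φ₀.rel u).Realize v) (r' := fun n u v => ((mapTup φ₀ iA).rel u).Realize v)
      (f := fun n g v => (φ₀.fn g).Realize v) (f' := fun n g v => ((mapTup φ₀ iA).fn g).Realize v)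
      (q := fun a => φ₁.eq.Realize ![a, a]) (q' := fun a => (mapTup φ₁ iB).eq.Realize ![a, a])
      (s := fun n u v => (φ₁.rel u).Realize v) (s' := fun n u v => ((mapTup φ₁ iB).rel u).Realize v)
      (g := fun n g v => (φ₁.fn g).Realize v) (g' := fun n g v => ((mapTup φ₁ iB).fn g).Realize v)
      ?_ ?_ ?_ ?_ ?_ ?_ (fun D₀ D₁ _ _ => D₀ ⊨ TE ∧ D₁ ⊨ TR ∧ (IsSat lam LR D₁ → IsSat lam LE D₀))
      ⟨S₀, S₁, h3, h4, h5, h6, h7⟩
    · funext a
      exact propext (LHom.realize_onFormula iA φ₀.eq).symm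
    · funext n u v
      exact propext (LHom.realize_onFormula iA (φ₀.rel u)).symm
    · funext n u v
      exact propext (LHom.realize_onFormula iA (φ₀.fn u)).symm
    · funext a
      exact propext (LHom.realize_onFormula iB φ₁.eq).symm
    · funext n u v
      exact propext (LHom.realize_onFormula iB (φ₁.rel u)).symm
    · funext n u v
      exact propext (LHom.realize_onFormula iB (φ₁.fn u)).symm
  obtain ⟨M, hne, hS, hM, h1⟩ := exists_model T hT.1 (mapTup φ₀ iA) (mapTup φ₁ iB)
    (fun M _ _ hM => by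
      obtain ⟨S₀, S₁, h1, h2, h3, h4, -⟩ := key M hM
      exact ⟨S₀, S₁, h1, h2, h3, h4⟩) lam hlam
  obtain ⟨S₀, S₁, h2, h3, -, -, h4⟩ := key M hM
  obtain ⟨h5, h6⟩ := h1 S₀ S₁ h2 h3
  exact h6 (IsSat.mono hlam1 (h4 h5))

/-- **Q1 has a negative answer.** The complete theory `TE` of the refining equivalence relations
`E_n` with infinite splitting is a stable theory in a countable vocabulary, the theory `TR` of the
random graph is an unstable theory in a countable vocabulary, and `TE` is not below `TR` in the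
order `⊴*_1`. Moreover, the failure is total: for each vocabulary `L` and each satisfiable
`L`-theory `T` of any cardinality that interprets `TE` and `TR`, by any formulas, and for each
infinite cardinal `lam`, there is a model of `T` in which the interpreted random graph is
`lam`-saturated and the interpreted model of `TE` is not even `ℵ₁`-saturated. -/
theorem result :
    LE.card ≤ ℵ₀ ∧ LR.card ≤ ℵ₀ ∧ TE.IsComplete ∧ TR.IsComplete ∧ ¬ Unstable TE ∧ Unstable TR ∧
    ¬ LeOne TE TR ∧
    ∀ (L : FirstOrder.Language.{0, 0}) (T : L.Theory) (φ₀ : Tup LE L) (φ₁ : Tup LR L),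
      T.IsSatisfiable →
      (∀ (M : Type) [Nonempty M] [L.Structure M], M ⊨ T →
        ∃ (S₀ : LE.Structure (φ₀.Dom M)) (S₁ : LR.Structure (φ₁.Dom M)),
          φ₀.Defines M S₀ ∧ φ₁.Defines M S₁ ∧ φ₀.Dom M ⊨ TE ∧ φ₁.Dom M ⊨ TR) →
      ∀ lam : Cardinal.{0}, ℵ₀ ≤ lam →
        ∃ (M : Type) (_ : Nonempty M) (_ : L.Structure M), M ⊨ T ∧
          ∀ (S₀ : LE.Structure (φ₀.Dom M)) (S₁ : LR.Structure (φ₁.Dom M)),
            φ₀.Defines M S₀ → φ₁.Defines M S₁ →
              IsSat lam LR (φ₁.Dom M) ∧ ¬ IsSat ℵ₁ LE (φ₀.Dom M) :=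
  ⟨card_le, card_lr, te_complete, tr_complete, te_stable, tr_unstable, not_leOne,
    fun _ T φ₀ φ₁ hT hint lam hlam => exists_model T hT φ₀ φ₁ hint lam hlam⟩

end Pool.Agent.Results.MP_491b55_lc.StableNotBelowRandomGraph
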